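import Pool.Agent.R250.MC4

set_option autoImplicit false

/-!
# MP_16b0ee_an: the strong Marshall bound for holomorphic families (quasiconformal extension)

Let `ψ_s`, `s` in the unit disc, be a holomorphic family of maps of the class `Σ` with
`ψ_0 (z) = z + b`. (By the measurable Riemann mapping theorem every map of the class `Σ` with a
`k`-quasiconformal extension to the plane is `ψ_s`, `|s| = k`, in such a family; no quasiconformal
map occurs below.) The integral of the question is bounded, uniformly for all `R > 1`, all such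
families and all `|s| ≤ k`, if `144 a k² < (4 - k²)²`. For `k² + 12 k ≤ 4`, that is
`k ≤ √40 - 6 = 0.3245…`, this is the full range `0 < a < 1` of the question. Moreover all complex
exponential moments of `log ψ_s'` are bounded with the variance `(12 k / (4 - k²))²`.

The proof. `(1 - |v|²) v H_s'(v)`, `H_s(v) = log ψ_s'(1/v)`, lies in the disc with centre `2 |v|²`
and radius `4 |v|` for every `s`, is a holomorphic function of `s` and vanishes at `s = 0`. By the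
Schwarz lemma it lies, for `|s| ≤ k`, in a disc whose radius is about `12 k / (4 - k²)`. The centre
of this disc does not contribute to the growth of the means of `exp (Re (conj t h))`.
-/

namespace Pool.Agent.Results.MP_16b0ee_an.HolomorphicFamilies

/-- The point `r e^{iθ}`. -/
noncomputable def circ (r θ : ℝ) : ℂ := (r : ℂ) * Complex.exp ((θ : ℂ) * Complex.I)

/-- `ψ ∈ Σ` and `h = log ψ'` (the branch vanishing at infinity), exactly as in the problem. -/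
def IsSigma (ψ h : ℂ → ℂ) : Prop :=
  DifferentiableOn ℂ ψ {z : ℂ | 1 < ‖z‖} ∧
  Set.InjOn ψ {z : ℂ | 1 < ‖z‖} ∧
  (∃ b : ℂ, Filter.Tendsto (fun z => ψ z - z) (Bornology.cobounded ℂ) (nhds b)) ∧
  DifferentiableOn ℂ h {z : ℂ | 1 < ‖z‖} ∧
  (∀ z : ℂ, 1 < ‖z‖ → Complex.exp (h z) = deriv ψ z) ∧
  Filter.Tendsto h (Bornology.cobounded ℂ) (nhds 0)

/-- Holomorphic families in the class `Σ`, `h s` being the logarithm of the derivative of `ψ s`:
`ψ s z` is a holomorphic function of `s` in the unit disc for every `|z| > 1`, and `ψ 0` is a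
translation. -/
def IsFamily (ψ h : ℂ → ℂ → ℂ) : Prop :=
  (∀ s : ℂ, ‖s‖ < 1 → IsSigma (ψ s) (h s)) ∧
  (∀ z : ℂ, 1 < ‖z‖ → DifferentiableOn ℂ (fun s => ψ s z) (Metric.ball 0 1)) ∧
  ∃ b : ℂ, ∀ z : ℂ, 1 < ‖z‖ → ψ 0 z = z + b

/-- The integral of Q1. -/
noncomputable def marshall (a R : ℝ) (h : ℂ → ℂ) : ℝ :=
  (1 / (2 * Real.pi)) * ∫ θ in (0:ℝ)..(2 * Real.pi),
    Real.exp (a * ‖h (circ R θ)‖ ^ 2 / Real.log (R ^ 2 / (R ^ 2 - 1)))

theorem result :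
    (∀ a k : ℝ, 0 < a → 0 ≤ k → k ≤ 1 → 144 * a * k ^ 2 < (4 - k ^ 2) ^ 2 →
      ∃ C : ℝ, ∀ (R : ℝ) (ψ h : ℂ → ℂ → ℂ) (s : ℂ), 1 < R → IsFamily ψ h → ‖s‖ < 1 → ‖s‖ ≤ k →
        marshall a R (h s) ≤ C) ∧
    (∀ a k : ℝ, 0 < a → a < 1 → 0 ≤ k → k ^ 2 + 12 * k ≤ 4 →
      ∃ C : ℝ, ∀ (R : ℝ) (ψ h : ℂ → ℂ → ℂ) (s : ℂ), 1 < R → IsFamily ψ h → ‖s‖ ≤ k →
        marshall a R (h s) ≤ C) ∧
    (∀ (R k : ℝ) (ψ h : ℂ → ℂ → ℂ) (s t : ℂ), 1 < R → IsFamily ψ h → ‖s‖ < 1 → ‖s‖ ≤ k → k ≤ 1 →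
      (1 / (2 * Real.pi)) * ∫ θ in (0:ℝ)..(2 * Real.pi),
        Real.exp ((starRingEnd ℂ) t * h s (circ R θ)).re ≤
      Real.exp (‖t‖ ^ 2 * (36 * k ^ 2 / (4 - k ^ 2) ^ 2 * Real.log (R ^ 2 / (R ^ 2 - 1)) + 10))) := by
  have H1 : ∀ a k : ℝ, 0 < a → 0 ≤ k → k ≤ 1 → 144 * a * k ^ 2 < (4 - k ^ 2) ^ 2 →
      ∃ C : ℝ, ∀ (R : ℝ) (ψ h : ℂ → ℂ → ℂ) (s : ℂ), 1 < R → IsFamily ψ h → ‖s‖ < 1 → ‖s‖ ≤ k →
        marshall a R (h s) ≤ C := by
    intro a k ha hk0 hk1 hak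
    obtain ⟨C, hC⟩ := Pool.Agent.R250.MC.fam_marshall ha hk0 hk1 hak
    exact ⟨C, fun R ψ h s hR hF hs hsk => hC R ψ h s hR hF hs hsk⟩
  refine ⟨H1, ?_, ?_⟩
  · intro a k ha ha1 hk0 hk
    have hk1 : k < 1 := by nlinarith
    have h12 : 12 * k ≤ 4 - k ^ 2 := by linarith
    have hpos : 0 < 4 - k ^ 2 := by nlinarith
    obtain ⟨C, hC⟩ := H1 a k ha hk0 hk1.le (by
      have h1 : (12 * k) ^ 2 ≤ (4 - k ^ 2) ^ 2 := pow_le_pow_left₀ (by positivity) h12 2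
      rcases eq_or_lt_of_le hk0 with h0 | h0
      · rw [← h0]; norm_num
      · have : a * (12 * k) ^ 2 < 1 * (12 * k) ^ 2 := mul_lt_mul_of_pos_right ha1 (by positivity)
        nlinarith)
    exact ⟨C, fun R ψ h s hR hF hsk => hC R ψ h s hR hF (hsk.trans_lt hk1) hsk⟩
  · intro R k ψ h s t hR hF hs hsk hk1
    have h1 := Pool.Agent.R250.MC.fam_moments (ψ := ψ) (h := h) hF hk1 hs hsk t hR
    have hpi := Real.pi_pos
    calc (1 / (2 * Real.pi)) * ∫ θ in (0:ℝ)..(2 * Real.pi),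
          Real.exp ((starRingEnd ℂ) t * h s (circ R θ)).re
        ≤ (1 / (2 * Real.pi)) * (2 * Real.pi * Real.exp (‖t‖ ^ 2 * (36 * k ^ 2 / (4 - k ^ 2) ^ 2 *
            Real.log (R ^ 2 / (R ^ 2 - 1)) + 10))) := mul_le_mul_of_nonneg_left h1 (by positivity)
      _ = _ := by field_simp

end Pool.Agent.Results.MP_16b0ee_an.HolomorphicFamilies
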